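import Pool.Agent.MP_ed8607_al.Main

set_option autoImplicit false

/-!
# Elements of `C_S(E)` are isolated under the action of `H`
-/

namespace Pool.Agent.Results.MP_ed8607_al.Isolation

open Subgroup Pool.Agent.FusionCentral

/-- Let `X` be a subgroup of `S` centralising `T = S ∩ H` and such that every morphism of
`F_T(H)` extends to a morphism of `F_S(G)` fixing `X`. If `x ∈ X`, `h ∈ H` and `h x h⁻¹ ∈ S`, then
`h x h⁻¹ = x`. (No condition on `O_{p'}(H)`.) -/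
theorem result : ∀ (p : ℕ), p.Prime → ∀ (G : Type) [Group G] [Finite G] (S : Sylow p G)
    (H : Subgroup G), H.Normal →
      ∀ X : Subgroup G, X ≤ (S : Subgroup G) →
        (∀ t ∈ (S : Subgroup G) ⊓ H, ∀ x ∈ X, t * x = x * t) →
        (∀ P : Subgroup G, P ≤ (S : Subgroup G) ⊓ H → ∀ h ∈ H,
            (∀ y ∈ P, h * y * h⁻¹ ∈ (S : Subgroup G) ⊓ H) →
            ∃ g : G, (∀ y ∈ P ⊔ X, g * y * g⁻¹ ∈ (S : Subgroup G)) ∧
              (∀ y ∈ P, g * y * g⁻¹ = h * y * h⁻¹) ∧ (∀ x ∈ X, g * x * g⁻¹ = x)) →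
        ∀ x ∈ X, ∀ h ∈ H, h * x * h⁻¹ ∈ (S : Subgroup G) → h * x * h⁻¹ = x := by
  intro p hp G _ _ S H hH X hXS hXT hext x hx h hh hhx
  have : Fact p.Prime := ⟨hp⟩
  have := hH
  have hxp : IsPGroup p (zpowers x) := isPGroup_zpowers_of_mem S.2 (hXS hx)
  have hyp : Hyp p H ((S : Subgroup G) ⊓ H) x := by
    refine ⟨syl_sylow_inf S H, hxp, fun t ht => hXT t ht x hx, ?_⟩
    intro P hP k hk hkP
    obtain ⟨g, _, hg2, hg3⟩ := hext P hP k hk hkP
    exact ⟨g, hg2, hg3 x hx⟩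
  refine hyp.isolated hh ?_
  have h1 : h * x * h⁻¹ * x⁻¹ ∈ (S : Subgroup G) ⊓ H :=
    ⟨(S : Subgroup G).mul_mem hhx ((S : Subgroup G).inv_mem (hXS hx)),
      K_conj_mem (Subgroup.mem_sup_left hh)⟩
  have := Subgroup.mul_mem_sup h1 (mem_zpowers x)
  simpa using this

end Pool.Agent.Results.MP_ed8607_al.Isolation
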