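import Pool.Agent.MP_ed8607_al.Constrained

set_option autoImplicit false

/-!
# Q1 for `p`-constrained and for `p`-solvable `H`
-/

namespace Pool.Agent.Results.MP_ed8607_al.PSolvableCase

open Subgroup Pool.Agent.FusionCentral

/-- Q1 holds for `(G, H)` whenever `H` is `p`-constrained (it has a normal `p`-subgroup containing
its centraliser in `H`) or `p`-solvable (it has a series of subgroups normal in `H` whose factors
are `p`-groups or of order prime to `p`). -/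
theorem result : ∀ (p : ℕ), p.Prime → ∀ (G : Type) [Group G] [Finite G] (S : Sylow p G)
    (H : Subgroup G), H.Normal →
      (∀ N : Subgroup G, N ≤ H → (∀ h ∈ H, ∀ n ∈ N, h * n * h⁻¹ ∈ N) →
          Nat.Coprime (Nat.card N) p → N = ⊥) →
      ((∃ U : Subgroup G, U ≤ H ∧ (∀ h ∈ H, ∀ u ∈ U, h * u * h⁻¹ ∈ U) ∧ IsPGroup p U ∧
          ∀ c ∈ H, (∀ u ∈ U, c * u = u * c) → c ∈ U) ∨
        (∃ (k : ℕ) (N : ℕ → Subgroup G), N 0 = ⊥ ∧ N k = H ∧
          (∀ i ≤ k, ∀ h ∈ H, ∀ n ∈ N i, h * n * h⁻¹ ∈ N i) ∧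
          (∀ i < k, N i ≤ N (i + 1) ∧ ((∃ m : ℕ, (N i).relIndex (N (i + 1)) = p ^ m) ∨
            Nat.Coprime ((N i).relIndex (N (i + 1))) p)))) →
      ∀ X : Subgroup G, X ≤ (S : Subgroup G) →
        (∀ t ∈ (S : Subgroup G) ⊓ H, ∀ x ∈ X, t * x = x * t) →
        (∀ P : Subgroup G, P ≤ (S : Subgroup G) ⊓ H → ∀ h ∈ H,
            (∀ y ∈ P, h * y * h⁻¹ ∈ (S : Subgroup G) ⊓ H) →
            ∃ g : G, (∀ y ∈ P ⊔ X, g * y * g⁻¹ ∈ (S : Subgroup G)) ∧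
              (∀ y ∈ P, g * y * g⁻¹ = h * y * h⁻¹) ∧ (∀ x ∈ X, g * x * g⁻¹ = x)) →
        ∀ x ∈ X, ∀ h ∈ H, x * h = h * x := by
  intro p hp G _ _ S H hH hN hcase X hXS hXT hext x hx h hh
  have : Fact p.Prime := ⟨hp⟩
  have := hH
  have hxp : IsPGroup p (zpowers x) := isPGroup_zpowers_of_mem S.2 (hXS hx)
  have hyp : Hyp p H ((S : Subgroup G) ⊓ H) x := by
    refine ⟨syl_sylow_inf S H, hxp, fun t ht => hXT t ht x hx, ?_⟩
    intro P hP k hk hkP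
    obtain ⟨g, _, hg2, hg3⟩ := hext P hP k hk hkP
    exact ⟨g, hg2, hg3 x hx⟩
  obtain ⟨U, hU, hUp, hUc⟩ : ∃ U : Subgroup G, NormalIn U H ∧ IsPGroup p U ∧
      H ⊓ centralizer (U : Set G) ≤ U := by
    rcases hcase with ⟨U, hU1, hU2, hUp, hUc⟩ | hs
    · refine ⟨U, ⟨hU1, hU2⟩, hUp, ?_⟩
      rintro c hc
      exact hUc c hc.1 (fun u hu => ((Subgroup.mem_centralizer_iff.1 hc.2) u hu).symm)
    · exact hall_higman hs hN
  exact constrained hyp hU hUp hUc hh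

end Pool.Agent.Results.MP_ed8607_al.PSolvableCase
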