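import Pool.Agent.MP_ed8607_al.ZStar

set_option autoImplicit false

/-!
# Q1 for all normal pairs is equivalent to its case `H = G`

For each prime `p` the case `H = G` of Q1 (the `Z*`-theorem for `p`) is equivalent to Q1 for all
`(G, H)`.
-/

namespace Pool.Agent.Results.MP_ed8607_al.ReductionToZStar

open Subgroup Pool.Agent.FusionCentral

/-- For every prime `p`: if Q1 holds for all pairs `(G, G)` (that is the `Z*`-theorem for `p`),
then Q1 holds for all pairs `(G, H)` with `H` normal in `G`, and conversely. -/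
theorem result : ∀ p : ℕ, p.Prime →
    ((∀ (G : Type) [Group G] [Finite G] (S : Sylow p G),
      (∀ N : Subgroup G, N.Normal → Nat.Coprime (Nat.card N) p → N = ⊥) →
      ∀ X : Subgroup G, X ≤ (S : Subgroup G) →
        (∀ t ∈ (S : Subgroup G), ∀ x ∈ X, t * x = x * t) →
        (∀ P : Subgroup G, P ≤ (S : Subgroup G) → ∀ h : G,
            (∀ y ∈ P, h * y * h⁻¹ ∈ (S : Subgroup G)) →
            ∃ g : G, (∀ y ∈ P ⊔ X, g * y * g⁻¹ ∈ (S : Subgroup G)) ∧
              (∀ y ∈ P, g * y * g⁻¹ = h * y * h⁻¹) ∧ (∀ x ∈ X, g * x * g⁻¹ = x)) →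
        ∀ x ∈ X, ∀ g : G, x * g = g * x) ↔
    (∀ (G : Type) [Group G] [Finite G] (S : Sylow p G) (H : Subgroup G), H.Normal →
      (∀ N : Subgroup G, N ≤ H → (∀ h ∈ H, ∀ n ∈ N, h * n * h⁻¹ ∈ N) →
          Nat.Coprime (Nat.card N) p → N = ⊥) →
      ∀ X : Subgroup G, X ≤ (S : Subgroup G) →
        (∀ t ∈ (S : Subgroup G) ⊓ H, ∀ x ∈ X, t * x = x * t) →
        (∀ P : Subgroup G, P ≤ (S : Subgroup G) ⊓ H → ∀ h ∈ H,
            (∀ y ∈ P, h * y * h⁻¹ ∈ (S : Subgroup G) ⊓ H) →
            ∃ g : G, (∀ y ∈ P ⊔ X, g * y * g⁻¹ ∈ (S : Subgroup G)) ∧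
              (∀ y ∈ P, g * y * g⁻¹ = h * y * h⁻¹) ∧ (∀ x ∈ X, g * x * g⁻¹ = x)) →
        ∀ x ∈ X, ∀ h ∈ H, x * h = h * x)) := by
  intro p hp
  haveI : Fact p.Prime := ⟨hp⟩
  constructor
  · intro hZ G _ _ S H hH hN X hXS hXT hext x hx h hh
    haveI := hH
    set T : Subgroup G := (S : Subgroup G) ⊓ H with hT
    have hxp : IsPGroup p (zpowers x) := isPGroup_zpowers_of_mem S.2 (hXS hx)
    have hyp : Hyp p H T x := by
      refine ⟨syl_sylow_inf S H, hxp, fun t ht => hXT t ht x hx, ?_⟩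
      intro P hP k hk hkP
      obtain ⟨g, _, hg2, hg3⟩ := hext P hP k hk hkP
      exact ⟨g, hg2, hg3 x hx⟩
    set K : Subgroup G := H ⊔ zpowers x with hK
    set A : Subgroup G := T ⊔ zpowers x with hA
    have hAK : Syl p A K := hyp.sylK
    have hxA : x ∈ A := x_mem_S
    have hxK : x ∈ K := x_mem_K
    have hiso : ∀ k ∈ K, k * x * k⁻¹ ∈ A → k * x * k⁻¹ = x := by
      intro k hk hkA
      exact hyp.iso_all 0 k hk hkA (Nat.zero_le _)
    -- the Sylow subgroup of `K`
    have hA' : IsPGroup p (A.subgroupOf K) := hAK.2.1.comap_subtype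
    have hidx : ¬ p ∣ (A.subgroupOf K).index := hAK.2.2
    let SK : Sylow p K := hA'.toSylow hidx
    have memSK : ∀ {k : K}, k ∈ (SK : Subgroup K) ↔ (k : G) ∈ A := fun {k} => Iff.rfl
    have hmemX : ∀ {k : K}, k ∈ (zpowers x).subgroupOf K ↔ (k : G) ∈ zpowers x := fun {k} => Iff.rfl
    have hcomm : ∀ a ∈ A, ∀ z ∈ zpowers x, a * z = z * a := by
      rintro a ha _ ⟨i, rfl⟩
      exact (Commute.zpow_right (show Commute a x from hyp.comm_S ha) i).eq
    have key := hZ K SK (by
      intro N hNn hNc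
      have h1 : N.map K.subtype = ⊥ := by
        apply no_pprime_sup (p := p) hxp hN
        · exact Subgroup.map_subtype_le N
        · rintro k hk _ ⟨n, hn, rfl⟩
          exact ⟨⟨k, hk⟩ * n * ⟨k, hk⟩⁻¹, hNn.conj_mem n hn ⟨k, hk⟩, rfl⟩
        · have : Nat.card (N.map K.subtype) = Nat.card N :=
            (Nat.card_congr ((N.equivMapOfInjective _ K.subtype_injective).toEquiv)).symm
          rw [this]; exact hNc
      exact (Subgroup.map_eq_bot_iff_of_injective N K.subtype_injective).1 h1)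
      ((zpowers x).subgroupOf K)
      (by
        intro z hz
        have hz' : (z : G) ∈ zpowers x := hz
        exact memSK.2 ((Subgroup.zpowers_le.2 hxA) hz'))
      (by
        intro t ht z hz
        ext
        exact hcomm _ (memSK.1 ht) _ (hmemX.1 hz))
      (by
        intro P hP k hkP
        obtain ⟨g, hgK, hg1, hg2⟩ := ext_of_isolated hAK hxA (fun a ha => hyp.comm_S ha) hiso
          (P := P.map K.subtype) (by
            rintro _ ⟨y, hy, rfl⟩
            exact memSK.1 (hP hy)) k.2 (by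
            rintro _ ⟨y, hy, rfl⟩
            exact memSK.1 (hkP y hy))
        have hgz : ∀ z ∈ zpowers x, g * z * g⁻¹ = z := by
          rintro _ ⟨i, rfl⟩
          have := (Commute.zpow_right (show Commute g x from hg2) i).eq
          show g * x ^ i * g⁻¹ = x ^ i
          rw [this]; group
        have h1 : ∀ y ∈ P, (⟨g, hgK⟩ : K) * y * (⟨g, hgK⟩ : K)⁻¹ = k * y * k⁻¹ := by
          intro y hy
          ext
          exact hg1 y ⟨y, hy, rfl⟩
        have h2 : ∀ z ∈ (zpowers x).subgroupOf K, (⟨g, hgK⟩ : K) * z * (⟨g, hgK⟩ : K)⁻¹ = z := by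
          intro z hz
          ext
          exact hgz z (hmemX.1 hz)
        refine ⟨⟨g, hgK⟩, ?_, h1, h2⟩
        have h3 : P ⊔ (zpowers x).subgroupOf K ≤
            (SK : Subgroup K).comap (MulAut.conj (⟨g, hgK⟩ : K)).toMonoidHom := by
          refine sup_le ?_ ?_
          · intro y hy
            have h4 := h1 y hy
            show (⟨g, hgK⟩ : K) * y * (⟨g, hgK⟩ : K)⁻¹ ∈ (SK : Subgroup K)
            rw [h4]
            exact hkP y hy
          · intro z hz
            have h4 := h2 z hz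
            show (⟨g, hgK⟩ : K) * z * (⟨g, hgK⟩ : K)⁻¹ ∈ (SK : Subgroup K)
            rw [h4]
            exact memSK.2 ((Subgroup.zpowers_le.2 hxA) (hmemX.1 hz))
        intro y hy
        exact h3 hy)
      ⟨x, hxK⟩ (hmemX.2 (mem_zpowers x)) ⟨h, Subgroup.mem_sup_left hh⟩
    have := congrArg Subtype.val key
    exact this
  · intro hQ G _ _ S hN X hXS hXT hext x hx g
    have htop : (S : Subgroup G) ⊓ ⊤ = S := inf_top_eq _
    refine hQ G S ⊤ inferInstance ?_ X hXS ?_ ?_ x hx g (Subgroup.mem_top g)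
    · intro N _ hNn hNc
      exact hN N ⟨fun n hn k => hNn k (Subgroup.mem_top k) n hn⟩ hNc
    · rw [htop]; exact hXT
    · rw [htop]
      intro P hP h _ hhP
      exact hext P hP h hhP

end Pool.Agent.Results.MP_ed8607_al.ReductionToZStar
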