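import Pool.Agent.Zst.Fin
import Pool.Agent.Results.MP_ed8607_al.ReductionToZStar

set_option autoImplicit false

/-!
# Q1 for the prime 2

Unconditional: the theorem of Glauberman on isolated elements for the prime two (including the
theorem of Brauer and Suzuki) is proved in `Pool/Agent/Zst`, without the classification.
-/

namespace Pool.Agent.Results.MP_ed8607_al.TwoCase

/-- Q1 for `p = 2` and all pairs `(G, H)`. -/
theorem result : ∀ (G : Type) [Group G] [Finite G] (S : Sylow 2 G) (H : Subgroup G),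
      H.Normal →
      (∀ N : Subgroup G, N ≤ H → (∀ h ∈ H, ∀ n ∈ N, h * n * h⁻¹ ∈ N) →
          Nat.Coprime (Nat.card N) 2 → N = ⊥) →
      ∀ X : Subgroup G, X ≤ (S : Subgroup G) →
        (∀ t ∈ (S : Subgroup G) ⊓ H, ∀ x ∈ X, t * x = x * t) →
        (∀ P : Subgroup G, P ≤ (S : Subgroup G) ⊓ H → ∀ h ∈ H,
            (∀ y ∈ P, h * y * h⁻¹ ∈ (S : Subgroup G) ⊓ H) →
            ∃ g : G, (∀ y ∈ P ⊔ X, g * y * g⁻¹ ∈ (S : Subgroup G)) ∧
              (∀ y ∈ P, g * y * g⁻¹ = h * y * h⁻¹) ∧ (∀ x ∈ X, g * x * g⁻¹ = x)) →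
        ∀ x ∈ X, ∀ h ∈ H, x * h = h * x := by
  refine (ReductionToZStar.result 2 Nat.prime_two).1 ?_
  intro G _ _ S hO X hXS hXT hext x hx g
  refine Zst.Fin_main G (fun N hN hodd => hO N hN (Nat.coprime_two_right.2 hodd)) x ?_ ?_ g
  · obtain ⟨k, hk⟩ := S.2 ⟨x, hXS hx⟩
    exact ⟨k, by simpa using congrArg (fun z : S => (z : G)) hk⟩
  · intro k g T hT h1 h2
    -- move `T` into `S`
    obtain ⟨P, hTP⟩ := hT.exists_le_sylow
    obtain ⟨c, hc⟩ := MulAction.exists_smul_eq G P S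
    have hmem : ∀ t ∈ T, c * t * c⁻¹ ∈ (S : Subgroup G) := by
      intro t ht
      rw [← hc]
      exact Subgroup.smul_mem_pointwise_smul t (MulAut.conj c) (P : Subgroup G) (hTP ht)
    have hxk : x ^ k ∈ X := X.pow_mem hx k
    -- a conjugate of an element of `X` which lies in `S` is this element
    have hiso : ∀ z ∈ X, ∀ a : G, a * z * a⁻¹ ∈ (S : Subgroup G) → a * z * a⁻¹ = z := by
      intro z hz a ha
      obtain ⟨b, -, hb2, hb3⟩ := hext (Subgroup.zpowers z)
        (Subgroup.zpowers_le.2 (hXS hz)) a (by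
          intro y hy
          obtain ⟨i, rfl⟩ := Subgroup.mem_zpowers_iff.1 hy
          rw [← conj_zpow]
          exact (S : Subgroup G).zpow_mem ha i)
      rw [← hb2 z (Subgroup.mem_zpowers z), hb3 z hz]
    have e1 := hiso _ hxk c (hmem _ h1)
    have e2 := hiso _ hxk (c * g) (by
      have := hmem _ h2
      have e : c * (g * x ^ k * g⁻¹) * c⁻¹ = c * g * x ^ k * (c * g)⁻¹ := by group
      rwa [e] at this)
    have e3 : c * (g * x ^ k * g⁻¹) * c⁻¹ = c * x ^ k * c⁻¹ := by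
      have e : c * (g * x ^ k * g⁻¹) * c⁻¹ = c * g * x ^ k * (c * g)⁻¹ := by group
      rw [e, e2, e1]
    exact mul_left_cancel (mul_right_cancel e3)

end Pool.Agent.Results.MP_ed8607_al.TwoCase
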